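import Pool.Agent.V11192.Ghys.Stmt

/-! Currents: versions of the definitions convenient for proofs. -/

set_option autoImplicit false

namespace Pool.Agent.V11192.Ghys

open MeasureTheory Set Topology TopologicalSpace
open scoped Manifold ContDiff Distributions

section

variable {V : Type} [NormedAddCommGroup V] [NormedSpace ℝ V]

/-- `Ω^k_c(U)`: smooth `k`-forms on the vector space `V` with compact support contained in the open
set `U`, with its usual topology (the one of Mathlib's test functions). -/
abbrev Form (k : ℕ) (U : Opens V) := TestFunction U (V [⋀^Fin k]→L[ℝ] ℝ) ⊤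

/-- The space of 2-currents on `U`, that is, of continuous linear functionals on `Ω^2_c(U)`, with
the weak topology. -/
abbrev Current (U : Opens V) := WeakDual ℝ (Form 2 U)

/-- The Dirac current of the 2-vector `v ∧ w` at `y`: it maps the form `α` to `α_y(v, w)`. -/
noncomputable def dirac (U : Opens V) (y v w : V) : Current U :=
  StrongDual.toWeakDual
    { toFun := fun α : Form 2 U => α y ![v, w]
      map_add' := fun _ _ => rfl
      map_smul' := fun _ _ => rfl
      cont := (continuous_eval_const ![v, w]).comp (continuous_eval_const y) }

/-- The exterior derivative `Ω^1_c(U) → Ω^2_c(U)`. -/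
noncomputable def dForm {U : Opens V} (β : Form 1 U) : Form 2 U where
  toFun := extDeriv β
  contDiff' := (ContinuousAlternatingMap.alternatizeUncurryFinCLM ℝ V ℝ).contDiff.comp
    (β.contDiff.fderiv_right le_rfl)
  hasCompactSupport' := (β.hasCompactSupport.fderiv ℝ).comp_left
    (g := ContinuousAlternatingMap.alternatizeUncurryFinCLM ℝ V ℝ) (map_zero _)
  tsupport_subset' := (tsupport_comp_subset
    (g := ContinuousAlternatingMap.alternatizeUncurryFinCLM ℝ V ℝ) (map_zero _) _).trans
      ((tsupport_fderiv_subset ℝ).trans β.tsupport_subset)

/-- The current `c` is a cycle: its boundary vanishes. -/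
def IsCycle {U : Opens V} (c : Current U) : Prop := ∀ β : Form 1 U, c (dForm β) = 0

/-- Extension by zero `Ω^2_c(U) → Ω^2_c(V)`. -/
noncomputable def extZero {U : Opens V} (α : Form 2 U) : Form 2 (⊤ : Opens V) :=
  ⟨α, α.contDiff, α.hasCompactSupport, subset_univ _⟩

end

end Pool.Agent.V11192.Ghys
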