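import Pool.Agent.V11192.Ghys.Riemann

/-! Positivity of the integration currents of curves. -/

set_option autoImplicit false

namespace Pool.Agent.V11192.Ghys

open MeasureTheory Set Topology TopologicalSpace
open scoped Manifold ContDiff Distributions
open Stmt (IsCurve chartDeriv pullCoeff IsIntegration IsPartition)

variable {X : Type} [TopologicalSpace X] [ChartedSpace ℂ X]
variable {V : Type} [NormedAddCommGroup V] [NormedSpace ℝ V] [NormedSpace ℂ V] [CompleteSpace V]

/-- nonnegativity of the coefficient -/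
theorem pullCoeff_nonneg {u : X → V} {e : OpenPartialHomeomorph X ℂ} {φ : V → ℝ}
    (hφ : ∀ x, 0 ≤ φ x) {κ : V [⋀^Fin 2]→L[ℝ] ℝ} (hκ : ∀ v : V, 0 ≤ κ ![v, Complex.I • v]) (z : ℂ) :
    0 ≤ pullCoeff u e (fun x => φ x • κ) z := by
  rw [pullCoeff]
  exact mul_nonneg (hφ _) (hκ _)

theorem pos_nonneg {U : Opens V} {u : X → V} {T : Stmt.Current U} (hT : IsIntegration U u T)
    {φ : V → ℝ} (hφ : ∀ x, 0 ≤ φ x) {κ : V [⋀^Fin 2]→L[ℝ] ℝ}
    (hκ : ∀ v : V, 0 ≤ κ ![v, Complex.I • v]) {α : Stmt.Form 2 U} (hα : ∀ x, α.val x = φ x • κ) :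
    0 ≤ T.val α := by
  obtain ⟨e, A, ⟨he, hAm, hAs, hdis, hcov⟩, hint⟩ := hT
  have hα' : α.val = fun x => φ x • κ := funext hα
  obtain ⟨h1, h2⟩ := hint α
  refine h2.nonneg fun k => ?_
  rw [hα']
  exact integral_nonneg fun z => pullCoeff_nonneg hφ hκ z

theorem pos_eq_zero {U : Opens V} {u : X → V} {T : Stmt.Current U} (hT : IsIntegration U u T)
    {φ : V → ℝ} {κ : V [⋀^Fin 2]→L[ℝ] ℝ} {α : Stmt.Form 2 U} (hα : ∀ x, α.val x = φ x • κ)
    (h0 : ∀ p, φ (u p) = 0) : T.val α = 0 := by
  obtain ⟨e, A, ⟨he, hAm, hAs, hdis, hcov⟩, hint⟩ := hT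
  have hα' : α.val = fun x => φ x • κ := funext hα
  obtain ⟨h1, h2⟩ := hint α
  rw [hα'] at h2
  have h3 : ∀ k, ∫ z in e k '' A k, pullCoeff u (e k) (fun x => φ x • κ) z = 0 := by
    intro k
    have : pullCoeff u (e k) (fun x => φ x • κ) = fun _ => 0 := by
      funext z
      rw [pullCoeff, h0, zero_smul]
      rfl
    rw [this, integral_zero]
  simp only [h3] at h2
  exact h2.unique hasSum_zero

/-- a positive form with vanishing integral vanishes on the curve -/
theorem zero_of_pos {U : Opens V} {u : X → V} (hu : IsCurve U X u) {T : Stmt.Current U}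
    (hT : IsIntegration U u T) {φ : V → ℝ} (hφc : Continuous φ) (hφ : ∀ x, 0 ≤ φ x)
    {κ : V [⋀^Fin 2]→L[ℝ] ℝ} (hκ : ∀ v : V, 0 ≤ κ ![v, Complex.I • v])
    (hκ' : ∀ v : V, v ≠ 0 → κ ![v, Complex.I • v] ≠ 0) {α : Stmt.Form 2 U} (hα : ∀ x, α.val x = φ x • κ)
    (h0 : T.val α = 0) (p : X) : φ (u p) = 0 := by
  have := hu.connected
  have := hu.manifold
  by_contra hp
  obtain ⟨e, A, ⟨he, hAm, hAs, hdis, hcov⟩, hint⟩ := hT
  have hα' : α.val = fun x => φ x • κ := funext hα
  obtain ⟨h1, h2⟩ := hint α
  rw [hα', h0] at h2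
  have hnn : ∀ k, 0 ≤ ∫ z in e k '' A k, pullCoeff u (e k) (fun x => φ x • κ) z := fun k =>
    integral_nonneg fun z => pullCoeff_nonneg hφ hκ z
  have h3 : ∀ k, ∫ z in e k '' A k, pullCoeff u (e k) (fun x => φ x • κ) z = 0 := by
    have := (hasSum_zero_iff_of_nonneg hnn).1 h2
    intro k
    exact congrFun this k
  have huc : Continuous u := hu.holomorphic.continuous
  -- continuity of the coefficient
  have hcd : ∀ k, ContinuousOn (chartDeriv u (e k)) (e k).target := by
    intro k
    have := (hol_chart hu.holomorphic (he k)).deriv (e k).open_target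
    exact this.continuousOn
  have hcoef : ∀ k, ContinuousOn (pullCoeff u (e k) fun x => φ x • κ) (e k).target := by
    intro k
    have c1 : ContinuousOn (fun z => φ (u ((e k).symm z))) (e k).target :=
      (hφc.comp huc).comp_continuousOn (e k).continuousOn_symm
    have c2 : ContinuousOn (fun z => κ ![chartDeriv u (e k) z, Complex.I • chartDeriv u (e k) z])
        (e k).target := by
      refine κ.cont.comp_continuousOn ?_
      refine continuousOn_pi.2 fun i => ?_
      fin_cases i
      · exact hcd k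
      · exact (hcd k).const_smul _
    exact c1.mul c2
  set N : ℕ → Set ℂ := fun k =>
    {z ∈ (e k).target | pullCoeff u (e k) (fun x => φ x • κ) z ≠ 0} with hN
  have hNo : ∀ k, IsOpen (N k) := by
    intro k
    exact (hcoef k).isOpen_inter_preimage (e k).open_target isOpen_ne
  have hN0 : ∀ k, volume (N k ∩ e k '' A k) = 0 := by
    intro k
    have hi := h1 k
    rw [hα'] at hi
    have h4 := (integral_eq_zero_iff_of_nonneg (fun z => pullCoeff_nonneg hφ hκ z) hi).1 (h3 k)
    have h5 : (volume.restrict (e k '' A k)) (N k) = 0 := by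
      refine measure_mono_null ?_ (ae_iff.1 h4)
      intro z hz
      exact hz.2
    rwa [Measure.restrict_apply (hNo k).measurableSet] at h5
  -- a chart around `p`
  set e0 := chartAt ℂ p with he0
  have he0a : e0 ∈ atlas ℂ X := chart_mem_atlas ℂ p
  have hp0 : p ∈ e0.source := mem_chart_source ℂ p
  have hd0 : ContinuousOn (chartDeriv u e0) e0.target :=
    ((hol_chart hu.holomorphic he0a).deriv e0.open_target).continuousOn
  set O : Set ℂ := {z ∈ e0.target | φ (u (e0.symm z)) ≠ 0} with hO
  have hOo : IsOpen O :=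
    ((hφc.comp huc).comp_continuousOn e0.continuousOn_symm).isOpen_inter_preimage e0.open_target
      isOpen_ne
  have hpO : e0 p ∈ O := by
    refine ⟨e0.map_source hp0, ?_⟩
    rw [e0.left_inv hp0]
    exact hp
  -- a point with non-zero derivative
  have hex : ∃ z ∈ O, chartDeriv u e0 z ≠ 0 := by
    by_contra hcon
    push Not at hcon
    obtain ⟨r, hr, hball⟩ := Metric.isOpen_iff.1 hOo (e0 p) hpO
    have hdiff : DifferentiableOn ℂ (fun y => u (e0.symm y)) (Metric.ball (e0 p) r) :=
      (hol_chart hu.holomorphic he0a).mono fun z hz => (hball hz).1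
    have hconst : ∀ z ∈ Metric.ball (e0 p) r, u (e0.symm z) = u (e0.symm (e0 p)) := by
      intro z hz
      have := (convex_ball (e0 p) r).is_const_of_fderivWithin_eq_zero (𝕜 := ℂ) hdiff
        (fun y hy => by
          rw [fderivWithin_of_isOpen Metric.isOpen_ball hy]
          have h6 := hcon y (hball hy)
          rw [chartDeriv] at h6
          ext
          simpa using h6) hz (Metric.mem_ball_self hr)
      exact this
    have hev : ∀ᶠ q in 𝓝 p, u q = u p := by
      have hc : Filter.Tendsto e0 (𝓝 p) (𝓝 (e0 p)) := e0.continuousAt hp0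
      filter_upwards [hc.eventually (Metric.ball_mem_nhds _ hr), e0.open_source.mem_nhds hp0]
        with q hq1 hq2
      have := hconst _ hq1
      rwa [e0.left_inv hq2, e0.left_inv hp0] at this
    obtain ⟨q, hq, -⟩ := hu.somewhere_injective
    apply hq
    have hall := identity_thm hu.holomorphic hev
    have : (fun y => u ((chartAt ℂ q).symm y)) = fun _ => u p := by
      ext1 y; exact hall _
    rw [chartDeriv, this, deriv_const]
  obtain ⟨z₁, hz₁, hdz₁⟩ := hex
  set W : Set ℂ := O ∩ {z ∈ e0.target | chartDeriv u e0 z ≠ 0} with hW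
  have hWo : IsOpen W := hOo.inter (hd0.isOpen_inter_preimage e0.open_target isOpen_ne)
  have hz₁W : z₁ ∈ W := ⟨hz₁, hz₁.1, hdz₁⟩
  -- `W` is a null set
  have hsub : W ⊆ ⋃ k, (fun z => e0 ((e k).symm z)) ''
      ((N k ∩ e k '' A k) ∩ {z ∈ (e k).target | (e k).symm z ∈ e0.source}) := by
    intro y hy
    have hyt : y ∈ e0.target := hy.1.1
    have hq : e0.symm y ∈ ⋃ k, A k := by rw [hcov]; trivial
    obtain ⟨k, hk⟩ := mem_iUnion.1 hq
    have hks : e0.symm y ∈ (e k).source := hAs k hk
    refine mem_iUnion.2 ⟨k, e k (e0.symm y), ⟨⟨⟨(e k).map_source hks, ?_⟩, ?_⟩,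
      ⟨(e k).map_source hks, ?_⟩⟩, ?_⟩
    · -- non-zero coefficient
      rw [pullCoeff, (e k).left_inv hks]
      refine mul_ne_zero hy.1.2 (hκ' _ ?_)
      intro hD
      apply hy.2.2
      -- chain rule
      have htr : DifferentiableAt ℂ (fun x => e k (e0.symm x)) y := transition he0a (he k) hyt hks
      have hdu : DifferentiableAt ℂ (fun x => u ((e k).symm x)) (e k (e0.symm y)) :=
        ((hol_chart hu.holomorphic (he k)) _ ((e k).map_source hks)).differentiableAt
          ((e k).open_target.mem_nhds ((e k).map_source hks))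
      have hch := HasDerivAt.scomp y hdu.hasDerivAt htr.hasDerivAt
      have hev : (fun x => u (e0.symm x)) =ᶠ[𝓝 y]
          ((fun x => u ((e k).symm x)) ∘ fun x => e k (e0.symm x)) := by
        have hc : ContinuousAt e0.symm y := e0.continuousAt_symm hyt
        filter_upwards [hc.eventually_mem ((e k).open_source.mem_nhds hks)] with x hx
        simp only [Function.comp_apply]
        rw [(e k).left_inv hx]
      rw [chartDeriv, hev.deriv_eq, hch.deriv]
      rw [chartDeriv] at hD
      rw [hD, smul_zero]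
    · exact ⟨e0.symm y, hk, rfl⟩
    · rw [(e k).left_inv hks]
      exact e0.map_target hyt
    · simp only
      rw [(e k).left_inv hks, e0.right_inv hyt]
  have hnull : volume W = 0 := by
    refine measure_mono_null hsub (measure_iUnion_null fun k => ?_)
    refine addHaar_image_eq_zero_of_differentiableOn_of_addHaar_eq_zero _ ?_
      (measure_mono_null inter_subset_left (hN0 k))
    rintro z ⟨-, hz1, hz2⟩
    exact ((transition (he k) he0a hz1 hz2).restrictScalars ℝ).differentiableWithinAt
  exact (hWo.measure_pos volume ⟨z₁, hz₁W⟩).ne' hnull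

end Pool.Agent.V11192.Ghys
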