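import Pool.Agent.V11192.Ghys.Stokes
import Pool.Agent.V11192.Ghys.Integ

/-! The tropical current is a cycle and is not a superposition of curves near the origin. -/

set_option autoImplicit false

namespace Pool.Agent.V11192.Ghys

open MeasureTheory Set Topology TopologicalSpace
open scoped Manifold ContDiff Distributions
open Stmt (closedCone IsCurve)

/-- the Kähler form -/
noncomputable def kap : (ℂ × ℂ) [⋀^Fin 2]→L[ℝ] ℝ where
  toFun m := (m 0).1.re * (m 1).1.im - (m 0).1.im * (m 1).1.re +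
    ((m 0).2.re * (m 1).2.im - (m 0).2.im * (m 1).2.re)
  map_update_add' m i x y := by
    fin_cases i <;> simp <;> ring
  map_update_smul' m i c x := by
    fin_cases i <;> simp <;> ring
  cont := by fun_prop
  map_eq_zero_of_eq' m i j hij hne := by
    fin_cases i <;> fin_cases j
    · exact absurd rfl hne
    · have h : m 0 = m 1 := hij
      simp only [h]; ring
    · have h : m 1 = m 0 := hij
      simp only [h]; ring
    · exact absurd rfl hne

theorem kap_apply (v w : ℂ × ℂ) : kap ![v, w] = v.1.re * w.1.im - v.1.im * w.1.re +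
    (v.2.re * w.2.im - v.2.im * w.2.re) := rfl

theorem kap_pos (v : ℂ × ℂ) : kap ![v, Complex.I • v] =
    v.1.re ^ 2 + v.1.im ^ 2 + (v.2.re ^ 2 + v.2.im ^ 2) := by
  rw [kap_apply]
  simp
  ring

theorem kap_nonneg (v : ℂ × ℂ) : 0 ≤ kap ![v, Complex.I • v] := by
  rw [kap_pos]; positivity

theorem kap_ne_zero (v : ℂ × ℂ) (hv : v ≠ 0) : kap ![v, Complex.I • v] ≠ 0 := by
  rw [kap_pos]
  intro h
  apply hv
  have h1 : v.1.re = 0 := by nlinarith [sq_nonneg v.1.re, sq_nonneg v.1.im, sq_nonneg v.2.re, sq_nonneg v.2.im]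
  have h2 : v.1.im = 0 := by nlinarith [sq_nonneg v.1.re, sq_nonneg v.1.im, sq_nonneg v.2.re, sq_nonneg v.2.im]
  have h3 : v.2.re = 0 := by nlinarith [sq_nonneg v.1.re, sq_nonneg v.1.im, sq_nonneg v.2.re, sq_nonneg v.2.im]
  have h4 : v.2.im = 0 := by nlinarith [sq_nonneg v.1.re, sq_nonneg v.1.im, sq_nonneg v.2.re, sq_nonneg v.2.im]
  exact Prod.ext (Complex.ext h1 h2) (Complex.ext h3 h4)

/-- the parametrisation of the three half-spaces -/
noncomputable def par (v w a : ℂ × ℂ) : ℝ × (ℝ × ℝ) →L[ℝ] ℂ × ℂ :=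
  (ContinuousLinearMap.fst ℝ ℝ (ℝ × ℝ)).smulRight v +
    (((ContinuousLinearMap.fst ℝ ℝ ℝ).comp (ContinuousLinearMap.snd ℝ ℝ (ℝ × ℝ))).smulRight w +
      ((ContinuousLinearMap.snd ℝ ℝ ℝ).comp (ContinuousLinearMap.snd ℝ ℝ (ℝ × ℝ))).smulRight a)

theorem par_apply (v w a : ℂ × ℂ) (s t τ : ℝ) :
    par v w a (s, (t, τ)) = s • v + t • w + τ • a := by
  simp [par, add_assoc]

/-- first half-space -/
noncomputable abbrev L1 := par (0, 1) (Complex.I • ((0, 1) : ℂ × ℂ)) (Complex.I, 0)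
/-- second half-space -/
noncomputable abbrev L2 := par (1, 0) (Complex.I • ((1, 0) : ℂ × ℂ)) (0, Complex.I)
/-- third half-space -/
noncomputable abbrev L3 := par (1, 1) (Complex.I • ((1, 1) : ℂ × ℂ)) (0, Complex.I)

theorem L1_apply (s t τ : ℝ) : L1 (s, (t, τ)) = ((⟨0, τ⟩ : ℂ), (⟨s, t⟩ : ℂ)) := by
  rw [par_apply]
  refine Prod.ext (Complex.ext ?_ ?_) (Complex.ext ?_ ?_) <;> simp

theorem L2_apply (s t τ : ℝ) : L2 (s, (t, τ)) = ((⟨s, t⟩ : ℂ), (⟨0, τ⟩ : ℂ)) := by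
  rw [par_apply]
  refine Prod.ext (Complex.ext ?_ ?_) (Complex.ext ?_ ?_) <;> simp

theorem L3_apply (s t τ : ℝ) : L3 (s, (t, τ)) = ((⟨s, t⟩ : ℂ), (⟨s, t + τ⟩ : ℂ)) := by
  rw [par_apply]
  refine Prod.ext (Complex.ext ?_ ?_) (Complex.ext ?_ ?_) <;> simp

theorem L1_inj : Function.Injective L1 := by
  rintro ⟨s, t, τ⟩ ⟨s', t', τ'⟩ h
  rw [L1_apply, L1_apply] at h
  have h1 := Prod.mk.inj h
  have h2 := Complex.ext_iff.1 h1.1
  have h3 := Complex.ext_iff.1 h1.2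
  simp only at h2 h3
  rw [h2.2, h3.1, h3.2]

theorem L2_inj : Function.Injective L2 := by
  rintro ⟨s, t, τ⟩ ⟨s', t', τ'⟩ h
  rw [L2_apply, L2_apply] at h
  have h1 := Prod.mk.inj h
  have h2 := Complex.ext_iff.1 h1.1
  have h3 := Complex.ext_iff.1 h1.2
  simp only at h2 h3
  rw [h3.2, h2.1, h2.2]

theorem L3_inj : Function.Injective L3 := by
  rintro ⟨s, t, τ⟩ ⟨s', t', τ'⟩ h
  rw [L3_apply, L3_apply] at h
  have h1 := Prod.mk.inj h
  have h2 := Complex.ext_iff.1 h1.1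
  have h3 := Complex.ext_iff.1 h1.2
  simp only at h2 h3
  rw [h2.1, h2.2]
  have : τ = τ' := by linarith [h2.2, h3.2]
  rw [this]

theorem emb_of_inj {L : ℝ × (ℝ × ℝ) →L[ℝ] ℂ × ℂ} (hL : Function.Injective L) :
    IsClosedEmbedding L :=
  LinearMap.isClosedEmbedding_of_injective (f := (L : ℝ × (ℝ × ℝ) →ₗ[ℝ] ℂ × ℂ))
    (LinearMap.ker_eq_bot.2 hL)

theorem locFin {L : ℝ × (ℝ × ℝ) →L[ℝ] ℂ × ℂ} (hL : Function.Injective L) (A : Set ℝ) :
    IsLocallyFiniteMeasure (Measure.map L (halfMeasure A)) := by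
  have : IsLocallyFiniteMeasure (halfMeasure A) := by unfold halfMeasure; infer_instance
  have h1 : IsFiniteMeasureOnCompacts (Measure.map L (halfMeasure A)) := by
    constructor
    intro K hK
    rw [(emb_of_inj hL).measurableEmbedding.map_apply]
    exact ((emb_of_inj hL).isCompact_preimage hK).measure_lt_top
  infer_instance

/-- the three pieces of the tropical current -/
noncomputable def piece (L : ℝ × (ℝ × ℝ) →L[ℝ] ℂ × ℂ) (A : Set ℝ) (v : ℂ × ℂ) :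
    Current (⊤ : Opens (ℂ × ℂ)) :=
  posCurrent (Measure.map L (halfMeasure A)) v (Complex.I • v)

theorem piece_apply {L : ℝ × (ℝ × ℝ) →L[ℝ] ℂ × ℂ} (hL : Function.Injective L) (A : Set ℝ)
    (v : ℂ × ℂ) (α : Form 2 (⊤ : Opens (ℂ × ℂ))) :
    piece L A v α = ∫ p, α (L p) ![v, Complex.I • v] ∂(halfMeasure A) := by
  have := locFin hL A
  rw [piece, posCurrent_apply, (emb_of_inj hL).measurableEmbedding.integral_map]

/-- the tropical current -/
noncomputable def cur : Current (⊤ : Opens (ℂ × ℂ)) :=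
  piece L1 (Iic 0) (0, 1) + piece L2 (Iic 0) (1, 0) + piece L3 (Ioi 0) (1, 1)

theorem cur_apply (α : Form 2 (⊤ : Opens (ℂ × ℂ))) : cur α =
    ∫ p, α (L1 p) ![(0, 1), Complex.I • (0, 1)] ∂(halfMeasure (Iic 0)) +
    ∫ p, α (L2 p) ![(1, 0), Complex.I • (1, 0)] ∂(halfMeasure (Iic 0)) +
    ∫ p, α (L3 p) ![(1, 1), Complex.I • (1, 1)] ∂(halfMeasure (Ioi 0)) := by
  rw [← piece_apply L1_inj, ← piece_apply L2_inj, ← piece_apply L3_inj]
  rfl

theorem cur_isCCurrent : Stmt.IsCCurrent (V := ℂ × ℂ) (U := ⊤) cur := by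
  refine closedCone_add (closedCone_add ?_ ?_) ?_
  · rintro K ⟨hK1, hK2, hK3, hK4⟩
    have := locFin L1_inj (Iic 0)
    exact posCurrent_mem _ _ _ hK1 hK2 hK3 fun y => hK4 ⟨y, trivial, _, rfl⟩
  · rintro K ⟨hK1, hK2, hK3, hK4⟩
    have := locFin L2_inj (Iic 0)
    exact posCurrent_mem _ _ _ hK1 hK2 hK3 fun y => hK4 ⟨y, trivial, _, rfl⟩
  · rintro K ⟨hK1, hK2, hK3, hK4⟩
    have := locFin L3_inj (Ioi 0)
    exact posCurrent_mem _ _ _ hK1 hK2 hK3 fun y => hK4 ⟨y, trivial, _, rfl⟩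

theorem one_add (β : (ℂ × ℂ) [⋀^Fin 1]→L[ℝ] ℝ) (a b : ℂ × ℂ) :
    β ![a + b] = β ![a] + β ![b] := by
  have h := β.map_update_add ![0] 0 a b
  have e : ∀ x : ℂ × ℂ, Function.update ![(0 : ℂ × ℂ)] 0 x = ![x] := by
    intro x
    ext i : 1
    fin_cases i
    rfl
  rwa [e, e, e] at h

theorem cur_isCycle : IsCycle cur := by
  intro β
  rw [cur_apply]
  have hβ : ContDiff ℝ ∞ β := β.contDiff
  have hc : HasCompactSupport β := β.hasCompactSupport
  have e1 := stokes_Iic hβ hc L1_inj (par_apply _ _ _)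
  have e2 := stokes_Iic hβ hc L2_inj (par_apply _ _ _)
  have e3 := stokes_Ioi hβ hc L3_inj (par_apply _ _ _)
  have hd : ∀ x, (dForm β) x = extDeriv β x := fun _ => rfl
  simp only [hd]
  rw [e1, e2, e3]
  set B : ℝ × ℝ → (ℂ × ℂ) := fun q => ((⟨0, q.1⟩ : ℂ), (⟨0, q.2⟩ : ℂ)) with hB
  have hBc : IsClosedEmbedding B := by
    have h1 : Continuous B := by
      have : B = fun q => ((q.1 : ℂ) * Complex.I, (q.2 : ℂ) * Complex.I) := by
        refine funext fun q => Prod.ext (Complex.ext ?_ ?_) (Complex.ext ?_ ?_) <;> simp [hB]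
      rw [this]
      fun_prop
    have h2 : Continuous fun x : ℂ × ℂ => (x.1.im, x.2.im) := by fun_prop
    exact Function.LeftInverse.isClosedEmbedding (fun q => rfl) h2 h1
  have hint : ∀ m : Fin 1 → ℂ × ℂ, Integrable (fun q : ℝ × ℝ => β (B q) m) := by
    intro m
    exact ((contDiff_coeff hβ m).continuous.comp hBc.continuous).integrable_of_hasCompactSupport
      ((compact_coeff hc m).comp_isClosedEmbedding hBc)
  have t1 : ∫ q : ℝ × ℝ, β (L1 (0, q)) ![Complex.I • ((0, 1) : ℂ × ℂ)] =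
      ∫ q : ℝ × ℝ, β (B q) ![Complex.I • ((0, 1) : ℂ × ℂ)] := by
    have h := integral_prod_swap (μ := (volume : Measure ℝ)) (ν := (volume : Measure ℝ))
      (fun q : ℝ × ℝ => β (B q) ![Complex.I • ((0, 1) : ℂ × ℂ)])
    rw [← Measure.volume_eq_prod] at h
    rw [← h]
    refine integral_congr_ae (Filter.Eventually.of_forall fun q => ?_)
    obtain ⟨t, τ⟩ := q
    simp only [Prod.swap_prod_mk]
    rw [L1_apply]
  have t2 : ∫ q : ℝ × ℝ, β (L2 (0, q)) ![Complex.I • ((1, 0) : ℂ × ℂ)] =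
      ∫ q : ℝ × ℝ, β (B q) ![Complex.I • ((1, 0) : ℂ × ℂ)] := by
    refine integral_congr_ae (Filter.Eventually.of_forall fun q => ?_)
    obtain ⟨t, τ⟩ := q
    simp only
    rw [L2_apply]
  have t3 : ∫ q : ℝ × ℝ, β (L3 (0, q)) ![Complex.I • ((1, 1) : ℂ × ℂ)] =
      ∫ q : ℝ × ℝ, β (B q) ![Complex.I • ((1, 1) : ℂ × ℂ)] := by
    have hmp : MeasurePreserving (fun z : ℝ × ℝ => (z.1, z.1 + z.2)) volume volume :=
      measurePreserving_prod_add volume volume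
    have hme : MeasurableEmbedding (fun z : ℝ × ℝ => (z.1, z.1 + z.2)) :=
      (MeasurableEquiv.shearAddRight ℝ).measurableEmbedding
    have h := hmp.integral_comp hme (fun q : ℝ × ℝ => β (B q) ![Complex.I • ((1, 1) : ℂ × ℂ)])
    rw [← h]
    refine integral_congr_ae (Filter.Eventually.of_forall fun q => ?_)
    obtain ⟨t, τ⟩ := q
    simp only
    rw [L3_apply]
  have t4 : ∫ q : ℝ × ℝ, β (B q) ![Complex.I • ((1, 1) : ℂ × ℂ)] =
      (∫ q : ℝ × ℝ, β (B q) ![Complex.I • ((0, 1) : ℂ × ℂ)]) +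
      ∫ q : ℝ × ℝ, β (B q) ![Complex.I • ((1, 0) : ℂ × ℂ)] := by
    rw [← integral_add (hint _) (hint _)]
    refine integral_congr_ae (Filter.Eventually.of_forall fun q => ?_)
    have : Complex.I • ((1, 1) : ℂ × ℂ) =
        Complex.I • ((0, 1) : ℂ × ℂ) + Complex.I • ((1, 0) : ℂ × ℂ) := by
      simp
    simp only
    rw [this, one_add]
  rw [t1, t2, t3, t4]
  ring

/-- the form `φ κ` -/
noncomputable def mkForm {U : Opens (ℂ × ℂ)} (φ : ℂ × ℂ → ℝ) (h1 : ContDiff ℝ ∞ φ)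
    (h2 : HasCompactSupport φ) (h3 : tsupport φ ⊆ U) : Form 2 U where
  toFun x := φ x • kap
  contDiff' := h1.smul contDiff_const
  hasCompactSupport' := h2.smul_right
  tsupport_subset' := (tsupport_smul_subset_left φ fun _ => kap).trans h3

theorem trop_of_mem1 (s t τ : ℝ) (hs : s ≤ 0) : L1 (s, (t, τ)) ∈ trop := by
  rw [L1_apply]; exact Or.inl ⟨rfl, hs⟩

theorem trop_of_mem2 (s t τ : ℝ) (hs : s ≤ 0) : L2 (s, (t, τ)) ∈ trop := by
  rw [L2_apply]; exact Or.inr (Or.inl ⟨rfl, hs⟩)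

theorem trop_of_mem3 (s t τ : ℝ) (hs : 0 < s) : L3 (s, (t, τ)) ∈ trop := by
  rw [L3_apply]; exact Or.inr (Or.inr ⟨rfl, hs.le⟩)

theorem half_ae {A : Set ℝ} (hA : MeasurableSet A) {P : ℝ × (ℝ × ℝ) → Prop}
    (h : ∀ s ∈ A, ∀ q, P (s, q)) : ∀ᵐ p ∂(halfMeasure A), P p := by
  have h1 : halfMeasure A = (volume : Measure (ℝ × (ℝ × ℝ))).restrict (A ×ˢ univ) := by
    rw [halfMeasure, Measure.volume_eq_prod ℝ (ℝ × ℝ), ← Measure.prod_restrict,
      Measure.restrict_univ]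
  rw [h1, ae_restrict_iff' (hA.prod MeasurableSet.univ)]
  exact Filter.Eventually.of_forall fun p hp => h p.1 hp.1 p.2

theorem cur_zero {U : Opens (ℂ × ℂ)} {φ : ℂ × ℂ → ℝ} {h1 : ContDiff ℝ ∞ φ}
    {h2 : HasCompactSupport φ} {h3 : tsupport φ ⊆ U} (h0 : ∀ x ∈ trop, φ x = 0) :
    cur (extZero (mkForm φ h1 h2 h3)) = 0 := by
  rw [cur_apply]
  have key : ∀ (L : ℝ × (ℝ × ℝ) →L[ℝ] ℂ × ℂ) (v : ℂ × ℂ) (A : Set ℝ), MeasurableSet A →
      (∀ s ∈ A, ∀ q, L (s, q) ∈ trop) →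
      ∫ p, (extZero (mkForm φ h1 h2 h3)) (L p) ![v, Complex.I • v] ∂(halfMeasure A) = 0 := by
    intro L v A hA hL
    rw [integral_eq_zero_of_ae]
    refine half_ae hA fun s hs q => ?_
    show (φ (L (s, q)) • kap) ![v, Complex.I • v] = 0
    rw [h0 _ (hL s hs q), zero_smul]
    rfl
  rw [key L1 _ _ measurableSet_Iic fun s hs q => trop_of_mem1 s q.1 q.2 hs,
    key L2 _ _ measurableSet_Iic fun s hs q => trop_of_mem2 s q.1 q.2 hs,
    key L3 _ _ measurableSet_Ioi fun s hs q => trop_of_mem3 s q.1 q.2 hs]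
  simp

theorem cur_pos {U : Opens (ℂ × ℂ)} {φ : ℂ × ℂ → ℝ} {h1 : ContDiff ℝ ∞ φ}
    {h2 : HasCompactSupport φ} {h3 : tsupport φ ⊆ U} (hφ : ∀ x, 0 ≤ φ x) (h0 : φ 0 = 1) :
    0 < cur (extZero (mkForm φ h1 h2 h3)) := by
  rw [cur_apply]
  have hnn : ∀ (L : ℝ × (ℝ × ℝ) →L[ℝ] ℂ × ℂ) (v : ℂ × ℂ) (p : ℝ × (ℝ × ℝ)),
      0 ≤ (extZero (mkForm φ h1 h2 h3)) (L p) ![v, Complex.I • v] := fun L v p =>
    mul_nonneg (hφ _) (kap_nonneg v)
  have hp : 0 < ∫ p, (extZero (mkForm φ h1 h2 h3)) (L1 p) ![(0, 1), Complex.I • (0, 1)]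
      ∂(halfMeasure (Iic 0)) := by
    have hm := locFin L1_inj (Iic 0)
    have hi : Integrable (fun p => (extZero (mkForm φ h1 h2 h3)) (L1 p)
        ![(0, 1), Complex.I • (0, 1)]) (halfMeasure (Iic 0)) := by
      have := integrable_form (Measure.map L1 (halfMeasure (Iic 0))) (0, 1) (Complex.I • (0, 1))
        (extZero (mkForm φ h1 h2 h3))
      exact ((emb_of_inj L1_inj).measurableEmbedding.integrable_map_iff).1 this
    rw [integral_pos_iff_support_of_nonneg (fun p => hnn _ _ p) hi]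
    -- an open subset of the half-space
    set O : Set (ℝ × (ℝ × ℝ)) := {p | 0 < φ (L1 p)} with hO
    have hOo : IsOpen O := isOpen_lt continuous_const (h1.continuous.comp L1.continuous)
    have h0O : (0 : ℝ × (ℝ × ℝ)) ∈ O := by
      show 0 < φ (L1 0)
      rw [map_zero, h0]; exact one_pos
    obtain ⟨r, hr, hball⟩ := Metric.isOpen_iff.1 hOo 0 h0O
    have hsub : Ioo (-r) 0 ×ˢ Metric.ball (0 : ℝ × ℝ) r ⊆ Function.support
        fun p => (extZero (mkForm φ h1 h2 h3)) (L1 p) ![(0, 1), Complex.I • (0, 1)] := by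
      rintro ⟨s, q⟩ ⟨hs, hq⟩
      have h4 : 0 < φ (L1 (s, q)) := by
        apply hball
        rw [mem_ball_zero_iff, Prod.norm_def]
        refine max_lt ?_ (mem_ball_zero_iff.1 hq)
        rw [Real.norm_eq_abs, abs_lt]
        exact ⟨hs.1, by linarith [hs.2]⟩
      show φ (L1 (s, q)) * kap ![(0, 1), Complex.I • (0, 1)] ≠ 0
      exact mul_ne_zero h4.ne' (kap_ne_zero _ (by simp))
    refine lt_of_lt_of_le ?_ (measure_mono hsub)
    rw [halfMeasure, Measure.prod_prod]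
    refine ENNReal.mul_pos ?_ (Metric.measure_ball_pos _ _ hr).ne'
    rw [Measure.restrict_apply measurableSet_Ioo, inter_eq_left.2 fun s hs => hs.2.le]
    simp [hr]
  have h4 : 0 ≤ ∫ p, (extZero (mkForm φ h1 h2 h3)) (L2 p) ![(1, 0), Complex.I • (1, 0)]
      ∂(halfMeasure (Iic 0)) := integral_nonneg fun p => hnn _ _ p
  have h5 : 0 ≤ ∫ p, (extZero (mkForm φ h1 h2 h3)) (L3 p) ![(1, 1), Complex.I • (1, 1)]
      ∂(halfMeasure (Ioi 0)) := integral_nonneg fun p => hnn _ _ p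
  linarith

theorem not_superposition (U : Opens (ℂ × ℂ)) (hU : (0 : ℂ × ℂ) ∈ U) :
    ¬ Stmt.IsSuperposition (V := ℂ × ℂ) cur U := by
  rintro ⟨m, ν, hν⟩
  obtain ⟨r, hr, hball⟩ := Metric.isOpen_iff.1 U.isOpen 0 hU
  set ε : ℝ := r / 4 with hε
  have hε0 : 0 < ε := by linarith
  have hUε : ∀ x : ℂ × ℂ, ‖x‖ < 4 * ε → x ∈ U := fun x hx =>
    hball (mem_ball_zero_iff.2 (by linarith))
  -- vanishing of the curves against positive forms with zero integral
  have hzero : ∀ (φ : ℂ × ℂ → ℝ) (h1 : ContDiff ℝ ∞ φ) (h2 : HasCompactSupport φ)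
      (h3 : tsupport φ ⊆ U), (∀ x, 0 ≤ φ x) → (∀ x ∈ trop, φ x = 0) →
      ∀ᵐ T ∂ν, Stmt.curveVal (U := U) (mkForm φ h1 h2 h3) T = 0 := by
    intro φ h1 h2 h3 hφ h0
    obtain ⟨hi, he⟩ := hν (mkForm φ h1 h2 h3)
    have he' : (0 : ℝ) = ∫ T, Stmt.curveVal (U := U) (mkForm φ h1 h2 h3) T ∂ν := by
      rw [← he]
      exact (cur_zero h0).symm
    have hnn : ∀ T : Stmt.curves U, 0 ≤ Stmt.curveVal (U := U) (mkForm φ h1 h2 h3) T := by
      rintro ⟨T, X, t1, t2, u, hu, hT⟩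
      exact pos_nonneg hT hφ kap_nonneg (fun x => rfl)
    exact (integral_eq_zero_iff_of_nonneg hnn hi).1 he'.symm
  -- countably many test functions off the tropical set
  have hO : IsOpen ((U : Set (ℂ × ℂ)) \ trop) := U.isOpen.sdiff isClosed_trop
  have hex : ∀ x : ((U : Set (ℂ × ℂ)) \ trop : Set (ℂ × ℂ)), ∃ φ : ℂ × ℂ → ℝ,
      tsupport φ ⊆ (U : Set (ℂ × ℂ)) \ trop ∧ HasCompactSupport φ ∧ ContDiff ℝ ∞ φ ∧
      range φ ⊆ Icc 0 1 ∧ φ x = 1 := fun x =>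
    exists_contDiff_tsupport_subset (hO.mem_nhds x.2)
  choose φ hφ1 hφ2 hφ3 hφ4 hφ5 using hex
  obtain ⟨C, hC, hCU⟩ := isOpen_iUnion_countable (fun x => {y | 0 < φ x y})
    (fun x => isOpen_lt continuous_const (hφ3 x).continuous)
  have hall : ∀ᵐ T ∂ν, ∀ x ∈ C, Stmt.curveVal (U := U) (mkForm (φ x) (hφ3 x) (hφ2 x)
      ((hφ1 x).trans sdiff_subset)) T = 0 := by
    rw [ae_ball_iff hC]
    intro x _
    refine hzero _ _ _ _ (fun y => (hφ4 x (mem_range_self y)).1) ?_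
    intro y hy
    refine image_eq_zero_of_notMem_tsupport fun h => ?_
    exact (hφ1 x h).2 hy
  -- hence almost all curves avoid a neighbourhood of the origin
  obtain ⟨ψ, hψ1, hψ2, hψ3, hψ4, hψ5⟩ := exists_contDiff_tsupport_subset (n := ⊤)
    (Metric.ball_mem_nhds (0 : ℂ × ℂ) hε0)
  have hψU : tsupport ψ ⊆ U := fun x hx => hUε x (by
    have := mem_ball_zero_iff.1 (hψ1 hx)
    linarith)
  obtain ⟨-, he⟩ := hν (mkForm ψ hψ3 hψ2 hψU)
  have hpos := cur_pos (U := U) (h1 := hψ3) (h2 := hψ2) (h3 := hψU)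
    (fun x => (hψ4 (mem_range_self x)).1) hψ5
  have hpos' : 0 < ∫ T, Stmt.curveVal (U := U) (mkForm ψ hψ3 hψ2 hψU) T ∂ν := by
    rw [← he]
    exact hpos
  refine hpos'.ne' (integral_eq_zero_of_ae ?_)
  filter_upwards [hall] with T hT
  obtain ⟨T, X, t1, t2, u, hu, hTu⟩ := T
  have htrop : ∀ p, u p ∈ trop := by
    intro p
    by_contra hp
    have hmem : u p ∈ ⋃ x, {y | 0 < φ x y} := by
      refine mem_iUnion.2 ⟨⟨u p, hu.mem p, hp⟩, ?_⟩
      show 0 < φ _ _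
      rw [hφ5]
      exact one_pos
    rw [← hCU] at hmem
    obtain ⟨x, hxC, hx⟩ := mem_iUnion₂.1 hmem
    have h0 := hT x hxC
    have := zero_of_pos hu hTu (hφ3 x).continuous (fun y => (hφ4 x (mem_range_self y)).1)
      kap_nonneg kap_ne_zero (fun x => rfl) h0 p
    exact (show 0 < φ x (u p) from hx).ne' this
  refine pos_eq_zero hTu (fun x => rfl) fun p => ?_
  refine image_eq_zero_of_notMem_tsupport fun h => ?_
  have h1 := mem_ball_zero_iff.1 (hψ1 h)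
  exact absurd (curve_avoids hu htrop hε0 hUε p) (not_le.2 h1)

end Pool.Agent.V11192.Ghys
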