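import Pool.Agent.V11192.Ghys.Defs

/-! Currents given by a measure and a constant 2-vector. -/

set_option autoImplicit false

namespace Pool.Agent.V11192.Ghys

open MeasureTheory Set Topology TopologicalSpace
open scoped Manifold ContDiff Distributions
open Stmt (closedCone)

variable {V : Type} [NormedAddCommGroup V] [NormedSpace ℝ V]

/-- evaluation of alternating maps -/
noncomputable def evalAt (v w : V) : (V [⋀^Fin 2]→L[ℝ] ℝ) →L[ℝ] ℝ :=
  { toFun := fun α => α ![v, w]
    map_add' := fun _ _ => rfl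
    map_smul' := fun _ _ => rfl
    cont := continuous_eval_const ![v, w] }

variable [MeasurableSpace V] [BorelSpace V]

/-- the current `α ↦ ∫ α_x(v, w) dμ(x)` -/
noncomputable def posCurrent (μ : Measure V) (v w : V) : Current (⊤ : Opens V) :=
  StrongDual.toWeakDual (TestFunction.integralAgainstBilinCLM
    ((ContinuousLinearMap.mul ℝ ℝ).comp (evalAt v w)) μ (fun _ => (1 : ℝ)))

omit [NormedSpace ℝ V] [BorelSpace V] in
theorem locInt (μ : Measure V) [IsLocallyFiniteMeasure μ] (S : Set V) :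
    LocallyIntegrableOn (fun _ : V => (1 : ℝ)) S μ :=
  (locallyIntegrable_const (1 : ℝ)).locallyIntegrableOn _

theorem posCurrent_apply (μ : Measure V) [IsLocallyFiniteMeasure μ] (v w : V)
    (α : Form 2 (⊤ : Opens V)) : posCurrent μ v w α = ∫ x, α x ![v, w] ∂μ := by
  have h := TestFunction.integralAgainstBilinCLM_eq_integral (𝕜 := ℝ)
    (B := (ContinuousLinearMap.mul ℝ ℝ).comp (evalAt v w)) (φ := fun _ : V => (1 : ℝ))
    (locInt μ ((⊤ : Opens V) : Set V)) (f := α)
  have h2 : posCurrent μ v w α = TestFunction.integralAgainstBilinCLM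
    ((ContinuousLinearMap.mul ℝ ℝ).comp (evalAt v w)) μ (fun _ => (1 : ℝ)) α := rfl
  rw [h2, h]
  refine integral_congr_ae (Filter.Eventually.of_forall fun x => ?_)
  simp [evalAt]

theorem integrable_form (μ : Measure V) [IsLocallyFiniteMeasure μ] (v w : V)
    (α : Form 2 (⊤ : Opens V)) : Integrable (fun x => α x ![v, w]) μ := by
  have h := TestFunction.integrable_bilin (𝕜 := ℝ)
    ((ContinuousLinearMap.mul ℝ ℝ).comp (evalAt v w)) (φ := fun _ : V => (1 : ℝ))
    (locInt μ ((⊤ : Opens V) : Set V)) α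
  refine h.congr (Filter.Eventually.of_forall fun x => ?_)
  simp [evalAt]

/-- a positive current of this kind lies in every closed convex cone containing the Dirac
currents -/
theorem posCurrent_mem (μ : Measure V) [IsLocallyFiniteMeasure μ] (v w : V)
    {K : Set (Current (⊤ : Opens V))} (hKc : IsClosed K) (hK : Convex ℝ K)
    (hcone : ∀ t : ℝ, 0 ≤ t → ∀ x ∈ K, t • x ∈ K) (hd : ∀ y, dirac ⊤ y v w ∈ K) :
    posCurrent μ v w ∈ K := by
  by_contra hcon
  have h1 : Kᶜ ∈ 𝓝 (posCurrent μ v w) := hKc.isOpen_compl.mem_nhds hcon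
  have hind : IsInducing (fun (T : Current (⊤ : Opens V)) (α : Form 2 (⊤ : Opens V)) => T α) :=
    ⟨rfl⟩
  rw [hind.nhds_eq_comap, Filter.mem_comap] at h1
  obtain ⟨t, ht, htK⟩ := h1
  rw [nhds_pi, Filter.mem_pi] at ht
  obtain ⟨I, hI, s, hs, hst⟩ := ht
  have := hI.fintype
  -- evaluation on the finite set
  set Φ : Current (⊤ : Opens V) → (I → ℝ) := fun T α => T α.1 with hΦ
  have hΦadd : ∀ x y, Φ (x + y) = Φ x + Φ y := fun _ _ => rfl
  have hΦsmul : ∀ (r : ℝ) x, Φ (r • x) = r • Φ x := fun _ _ => rfl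
  set F : V → (I → ℝ) := fun x α => α.1 x ![v, w] with hF
  have hFint : Integrable F μ := Integrable.of_eval fun α => integrable_form μ v w α.1
  have hΦF : Φ (posCurrent μ v w) = ∫ x, F x ∂μ := by
    ext α
    have h5 := eval_integral (μ := μ) (f := F) (fun α => integrable_form μ v w α.1) α
    rw [h5]
    exact posCurrent_apply μ v w α.1
  have hconv : Convex ℝ (Φ '' K) := by
    rintro _ ⟨x, hx, rfl⟩ _ ⟨y, hy, rfl⟩ a b ha hb hab
    exact ⟨a • x + b • y, hK hx hy ha hb hab, rfl⟩
  set A : Set V := ⋃ α : I, tsupport (α.1 : V → V [⋀^Fin 2]→L[ℝ] ℝ) with hA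
  have hAc : IsCompact A := isCompact_iUnion fun α => α.1.hasCompactSupport
  have hFA : ∀ x ∉ A, F x = 0 := by
    intro x hx
    ext α
    have : x ∉ tsupport (α.1 : V → V [⋀^Fin 2]→L[ℝ] ℝ) := fun h => hx (mem_iUnion.2 ⟨α, h⟩)
    simp only [hF, image_eq_zero_of_notMem_tsupport this]
    rfl
  have hset : ∫ x, F x ∂μ = ∫ x in A, F x ∂μ :=
    (setIntegral_eq_integral_of_forall_compl_eq_zero hFA).symm
  have hmem : Φ (posCurrent μ v w) ∈ closure (Φ '' K) := by
    rw [hΦF, hset]
    by_cases h0 : μ A = 0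
    · rw [setIntegral_measure_zero _ h0]
      refine subset_closure ⟨(0 : ℝ) • dirac ⊤ 0 v w, hcone 0 le_rfl _ (hd 0), ?_⟩
      rw [hΦsmul, zero_smul]
    · have hfin : μ A ≠ ⊤ := hAc.measure_lt_top.ne
      have hav := hconv.set_average_mem_closure h0 hfin
        (Filter.Eventually.of_forall (p := fun x => F x ∈ Φ '' K)
          fun x => ⟨dirac ⊤ x v w, hd x, rfl⟩) hFint.integrableOn
      have hsm : ∫ x in A, F x ∂μ = μ.real A • ⨍ x in A, F x ∂μ := by
        rw [setAverage_eq, smul_smul, mul_inv_cancel₀, one_smul]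
        exact (ENNReal.toReal_pos h0 hfin).ne'
      rw [hsm]
      have hcl : ∀ z ∈ closure (Φ '' K), μ.real A • z ∈ closure (Φ '' K) := by
        intro z hz
        refine map_mem_closure (continuous_const_smul _) hz ?_
        rintro _ ⟨x, hx, rfl⟩
        exact ⟨μ.real A • x, hcone _ measureReal_nonneg _ hx, rfl⟩
      exact hcl _ hav
  have hopen : univ.pi (fun α : I => s α.1) ∈ 𝓝 (Φ (posCurrent μ v w)) :=
    set_pi_mem_nhds finite_univ fun α _ => hs α.1
  obtain ⟨_, hz, T, hT, rfl⟩ := mem_closure_iff_nhds.1 hmem _ hopen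
  refine htK (a := T) ?_ hT
  apply hst
  intro α hα
  exact hz ⟨α, hα⟩ (mem_univ _)

theorem closedCone_add {W : Type} [AddCommGroup W] [Module ℝ W] [TopologicalSpace W] {S : Set W}
    {x y : W} (hx : x ∈ closedCone S) (hy : y ∈ closedCone S) : x + y ∈ closedCone S := by
  intro K hK
  have h1 := hx K hK
  have h2 := hy K hK
  obtain ⟨-, hconv, hcone, -⟩ := hK
  have h3 := hcone 2 (by norm_num) _ (hconv h1 h2 (by norm_num : (0:ℝ) ≤ 1/2)
    (by norm_num : (0:ℝ) ≤ 1/2) (by norm_num))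
  rw [smul_add, smul_smul, smul_smul] at h3
  norm_num at h3
  exact h3

end Pool.Agent.V11192.Ghys
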