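import Pool.Agent.V11192.Ghys.Defs

/-! Holomorphic maps on Riemann surfaces: identity theorem, open mapping, proper curves. -/

set_option autoImplicit false

namespace Pool.Agent.V11192.Ghys

open MeasureTheory Set Topology TopologicalSpace
open scoped Manifold ContDiff Distributions
open Stmt (IsCurve chartDeriv)

variable {X : Type} [TopologicalSpace X] [ChartedSpace ℂ X]

section

variable {F : Type} [NormedAddCommGroup F] [NormedSpace ℂ F]

variable [IsManifold 𝓘(ℂ, ℂ) ω X]

theorem one_manifold : IsManifold 𝓘(ℂ, ℂ) 1 X := IsManifold.of_le (n := ω) le_top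

theorem hol_chart {f : X → F} (hf : MDifferentiable 𝓘(ℂ, ℂ) 𝓘(ℂ, F) f)
    {e : OpenPartialHomeomorph X ℂ} (he : e ∈ atlas ℂ X) :
    DifferentiableOn ℂ (fun y => f (e.symm y)) e.target := by
  have := one_manifold (X := X)
  intro z hz
  have h1 : MDifferentiableAt 𝓘(ℂ, ℂ) 𝓘(ℂ, ℂ) e.symm z := mdifferentiableAt_atlas_symm he hz
  have h2 : MDifferentiableAt 𝓘(ℂ, ℂ) 𝓘(ℂ, F) (f ∘ e.symm) z := (hf _).comp z h1
  exact (mdifferentiableAt_iff_differentiableAt.1 h2).differentiableWithinAt

theorem transition {e e' : OpenPartialHomeomorph X ℂ} (he : e ∈ atlas ℂ X) (he' : e' ∈ atlas ℂ X)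
    {z : ℂ} (hz : z ∈ e.target) (hz' : e.symm z ∈ e'.source) :
    DifferentiableAt ℂ (fun y => e' (e.symm y)) z := by
  have := one_manifold (X := X)
  have h1 : MDifferentiableAt 𝓘(ℂ, ℂ) 𝓘(ℂ, ℂ) e.symm z := mdifferentiableAt_atlas_symm he hz
  have h2 : MDifferentiableAt 𝓘(ℂ, ℂ) 𝓘(ℂ, ℂ) e' (e.symm z) := mdifferentiableAt_atlas he' hz'
  exact mdifferentiableAt_iff_differentiableAt.1 (h2.comp z h1)

variable [CompleteSpace F]

theorem identity_thm [ConnectedSpace X] {f : X → F} (hf : MDifferentiable 𝓘(ℂ, ℂ) 𝓘(ℂ, F) f)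
    {c : F} {p₀ : X} (h0 : ∀ᶠ q in 𝓝 p₀, f q = c) (p : X) : f p = c := by
  set A : Set X := {p | ∀ᶠ q in 𝓝 p, f q = c} with hA
  have hAo : IsOpen A := isOpen_setOfPred_eventually_nhds
  have hAc : IsClosed A := by
    rw [← closure_subset_iff_isClosed]
    intro p hp
    set e := chartAt ℂ p with he
    have hpe : p ∈ e.source := mem_chart_source ℂ p
    obtain ⟨r, hr, hball⟩ := Metric.isOpen_iff.1 e.open_target (e p) (e.map_source hpe)
    set W := Metric.ball (e p) r with hW
    have hVo : IsOpen (e.source ∩ e ⁻¹' W) := e.isOpen_inter_preimage Metric.isOpen_ball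
    have hpV : p ∈ e.source ∩ e ⁻¹' W := ⟨hpe, Metric.mem_ball_self hr⟩
    obtain ⟨q, ⟨hq1, hq2⟩, hqA⟩ := mem_closure_iff.1 hp _ hVo hpV
    have hFa : AnalyticOnNhd ℂ (fun y => f (e.symm y)) W :=
      (hol_chart hf (chart_mem_atlas ℂ p)).analyticOnNhd e.open_target |>.mono hball
    have hev : (fun y => f (e.symm y)) =ᶠ[𝓝 (e q)] fun _ => c := by
      have hc : Filter.Tendsto e.symm (𝓝 (e q)) (𝓝 q) := by
        have := e.continuousAt_symm (e.map_source hq1)
        rw [ContinuousAt, e.left_inv hq1] at this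
        exact this
      exact hc.eventually hqA
    have heq := hFa.eqOn_of_preconnected_of_eventuallyEq analyticOnNhd_const
      (convex_ball _ _).isPreconnected hq2 hev
    filter_upwards [hVo.mem_nhds hpV] with q' hq'
    have := heq hq'.2
    simp only [e.left_inv hq'.1] at this
    exact this
  have : A = univ := IsClopen.eq_univ ⟨hAc, hAo⟩ ⟨p₀, h0⟩
  have hp : p ∈ A := by rw [this]; trivial
  exact hp.self_of_nhds

end

section

variable [IsManifold 𝓘(ℂ, ℂ) ω X] [ConnectedSpace X]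

/-- open mapping -/
theorem nhds_le {h : X → ℂ} (hh : MDifferentiable 𝓘(ℂ, ℂ) 𝓘(ℂ, ℂ) h)
    (hne : ∃ p q, h p ≠ h q) (p : X) : 𝓝 (h p) ≤ Filter.map h (𝓝 p) := by
  set e := chartAt ℂ p with he
  have hpe : p ∈ e.source := mem_chart_source ℂ p
  have hFa : AnalyticAt ℂ (fun y => h (e.symm y)) (e p) :=
    (hol_chart hh (chart_mem_atlas ℂ p)).analyticOnNhd e.open_target _ (e.map_source hpe)
  rcases hFa.eventually_constant_or_nhds_le_map_nhds with h1 | h1
  · exfalso
    obtain ⟨a, b, hab⟩ := hne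
    have h2 : ∀ᶠ q in 𝓝 p, h q = h p := by
      have hc : Filter.Tendsto e (𝓝 p) (𝓝 (e p)) := e.continuousAt hpe
      filter_upwards [hc.eventually h1, e.open_source.mem_nhds hpe] with q hq1 hq2
      simp only [e.left_inv hq2, e.left_inv hpe] at hq1
      exact hq1
    exact hab ((identity_thm hh h2 a).trans (identity_thm hh h2 b).symm)
  · have h2 : Filter.map (fun y => h (e.symm y)) (𝓝 (e p)) = Filter.map h (𝓝 p) := by
      rw [← e.symm_map_nhds_eq hpe, Filter.map_map]
      rfl
    rw [h2] at h1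
    simpa only [e.left_inv hpe] using h1

/-- a holomorphic function with vanishing real part on a non-empty open set is constant -/
theorem const_of_re {h : X → ℂ} (hh : MDifferentiable 𝓘(ℂ, ℂ) 𝓘(ℂ, ℂ) h) {O : Set X}
    (hO : IsOpen O) (hne : O.Nonempty) (hre : ∀ p ∈ O, (h p).re = 0) (p q : X) : h p = h q := by
  by_contra hpq
  obtain ⟨x, hx⟩ := hne
  have h1 := nhds_le hh ⟨p, q, hpq⟩ x
  have h2 : h '' O ∈ 𝓝 (h x) := h1 (Filter.image_mem_map (hO.mem_nhds hx))
  obtain ⟨δ, hδ, hball⟩ := Metric.mem_nhds_iff.1 h2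
  have h3 : h x + ((δ / 2 : ℝ) : ℂ) ∈ Metric.ball (h x) δ := by
    rw [Metric.mem_ball, dist_eq_norm, add_sub_cancel_left, Complex.norm_real, Real.norm_eq_abs,
      abs_of_pos (by linarith)]
    linarith
  obtain ⟨y, hy, hyx⟩ := hball h3
  have h4 := hre y hy
  rw [hyx, Complex.add_re, hre x hx, Complex.ofReal_re] at h4
  linarith

theorem isOpen_range_of {h : X → ℂ} (hh : MDifferentiable 𝓘(ℂ, ℂ) 𝓘(ℂ, ℂ) h)
    (hne : ∃ p q, h p ≠ h q) : IsOpen (range h) := by
  rw [isOpen_iff_mem_nhds]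
  rintro _ ⟨p, rfl⟩
  have := nhds_le hh hne p Filter.univ_mem
  exact nhds_le hh hne p (Filter.mem_map.2 (Filter.mem_of_superset Filter.univ_mem
    fun q _ => mem_range_self q))

end

section

variable {V : Type} [NormedAddCommGroup V] [NormedSpace ℝ V] [NormedSpace ℂ V]

omit [NormedSpace ℝ V] in
/-- a curve contained in a complex line is the whole component of the line -/
theorem ball_subset_range [IsManifold 𝓘(ℂ, ℂ) ω X] [ConnectedSpace X] {U : Opens V} {u : X → V}
    (hprop : ∀ K : Set V, K ⊆ U → IsCompact K → IsCompact (u ⁻¹' K)) {h : X → ℂ}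
    (hh : MDifferentiable 𝓘(ℂ, ℂ) 𝓘(ℂ, ℂ) h) (hne : ∃ p q, h p ≠ h q) {x₀ v : V}
    (hu : ∀ p, u p = x₀ + h p • v) {z₀ : ℂ} {r : ℝ} (hU : ∀ z ∈ Metric.ball z₀ r, x₀ + z • v ∈ U)
    {p₀ : X} (hp₀ : h p₀ ∈ Metric.ball z₀ r) : Metric.ball z₀ r ⊆ range h := by
  refine IsPreconnected.subset_of_closure_inter_subset (convex_ball _ _).isPreconnected
    (isOpen_range_of hh hne) ⟨h p₀, hp₀, mem_range_self _⟩ ?_
  rintro z ⟨hz1, hz2⟩
  obtain ⟨δ, hδ, hball⟩ := Metric.isOpen_iff.1 Metric.isOpen_ball z hz2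
  set C := Metric.closedBall z (δ / 2) with hC
  have hCs : C ⊆ Metric.ball z₀ r :=
    (Metric.closedBall_subset_ball (by linarith)).trans hball
  set K : Set V := (fun y : ℂ => x₀ + y • v) '' C with hK
  have hKc : IsCompact K := (isCompact_closedBall z (δ / 2)).image (by fun_prop)
  have hKU : K ⊆ U := by
    rintro _ ⟨y, hy, rfl⟩
    exact hU y (hCs hy)
  have h1 := hprop K hKU hKc
  have hhc : Continuous h := hh.continuous
  have h2 : IsClosed (h '' (u ⁻¹' K)) := (h1.image hhc).isClosed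
  have h3 : z ∈ closure (h '' (u ⁻¹' K)) := by
    rw [mem_closure_iff_nhds]
    intro t ht
    obtain ⟨y, ⟨hy1, hy2⟩, ⟨p, rfl⟩⟩ := mem_closure_iff_nhds.1 hz1 (t ∩ Metric.ball z (δ / 2))
      (Filter.inter_mem ht (Metric.ball_mem_nhds z (by linarith)))
    refine ⟨h p, hy1, p, ?_, rfl⟩
    rw [mem_preimage, hu p]
    exact ⟨h p, Metric.ball_subset_closedBall hy2, rfl⟩
  rw [h2.closure_eq] at h3
  obtain ⟨p, -, rfl⟩ := h3
  exact mem_range_self p

end

/-- The support of the tropical current. -/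
def trop : Set (ℂ × ℂ) :=
  {x | (x.1.re = 0 ∧ x.2.re ≤ 0) ∨ (x.2.re = 0 ∧ x.1.re ≤ 0) ∨ (x.1.re = x.2.re ∧ 0 ≤ x.1.re)}

theorem isClosed_trop : IsClosed trop := by
  have h1 : Continuous fun x : ℂ × ℂ => x.1.re := by fun_prop
  have h2 : Continuous fun x : ℂ × ℂ => x.2.re := by fun_prop
  refine IsClosed.union ?_ (IsClosed.union ?_ ?_)
  · exact (isClosed_eq h1 continuous_const).inter (isClosed_le h2 continuous_const)
  · exact (isClosed_eq h2 continuous_const).inter (isClosed_le h1 continuous_const)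
  · exact (isClosed_eq h1 h2).inter (isClosed_le continuous_const h1)

/-- a curve contained in the tropical set stays away from the origin -/
theorem curve_avoids {U : Opens (ℂ × ℂ)} {u : X → ℂ × ℂ} (hu : IsCurve U X u)
    (hS : ∀ p, u p ∈ trop) {ε : ℝ} (hε : 0 < ε) (hU : ∀ x : ℂ × ℂ, ‖x‖ < 4 * ε → x ∈ U) (p₀ : X) :
    ε ≤ ‖u p₀‖ := by
  by_contra hlt
  push Not at hlt
  have := hu.connected
  have := hu.manifold
  have := hu.t2
  have hf : MDifferentiable 𝓘(ℂ, ℂ) 𝓘(ℂ, ℂ) fun p => (u p).1 := fun p =>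
    (ContinuousLinearMap.fst ℂ ℂ ℂ).differentiableAt.mdifferentiableAt.comp p (hu.holomorphic p)
  have hg : MDifferentiable 𝓘(ℂ, ℂ) 𝓘(ℂ, ℂ) fun p => (u p).2 := fun p =>
    (ContinuousLinearMap.snd ℂ ℂ ℂ).differentiableAt.mdifferentiableAt.comp p (hu.holomorphic p)
  have hfg : MDifferentiable 𝓘(ℂ, ℂ) 𝓘(ℂ, ℂ) fun p => (u p).1 - (u p).2 := fun p =>
    (ContinuousLinearMap.fst ℂ ℂ ℂ - ContinuousLinearMap.snd ℂ ℂ ℂ).differentiableAt.mdifferentiableAt.comp
      p (hu.holomorphic p)
  have huc : Continuous u := hu.holomorphic.continuous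
  -- the curve is not constant
  have hnc : ∃ p q, u p ≠ u q := by
    by_contra hcon
    push Not at hcon
    obtain ⟨p, hp, -⟩ := hu.somewhere_injective
    apply hp
    have : (fun y => u ((chartAt ℂ p).symm y)) = fun _ => u p := by
      ext1 y; exact hcon _ _
    rw [chartDeriv, this, deriv_const]
  obtain ⟨a, b, hab⟩ := hnc
  have hnorm : ‖(u p₀).1‖ < ε ∧ ‖(u p₀).2‖ < ε := by
    rw [Prod.norm_def] at hlt
    exact ⟨lt_of_le_of_lt (le_max_left _ _) hlt, lt_of_le_of_lt (le_max_right _ _) hlt⟩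
  -- the closed sets
  set A1 : Set X := {p | (u p).1.re = 0 ∧ (u p).2.re ≤ 0} with hA1
  set A2 : Set X := {p | (u p).2.re = 0 ∧ (u p).1.re ≤ 0} with hA2
  have c1 : Continuous fun p => (u p).1.re := Complex.continuous_re.comp (continuous_fst.comp huc)
  have c2 : Continuous fun p => (u p).2.re := Complex.continuous_re.comp (continuous_snd.comp huc)
  have hA1c : IsClosed A1 := (isClosed_eq c1 continuous_const).inter
    (isClosed_le c2 continuous_const)
  have hA2c : IsClosed A2 := (isClosed_eq c2 continuous_const).inter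
    (isClosed_le c1 continuous_const)
  have hcases : (∀ p q, (u p).1 = (u q).1 ∧ (u p).1.re = 0) ∨
      (∀ p q, (u p).2 = (u q).2 ∧ (u p).2.re = 0) ∨
      (∀ p q, (u p).1 - (u p).2 = (u q).1 - (u q).2 ∧ ((u p).1 - (u p).2).re = 0) := by
    have fin : ∀ {h : X → ℂ} (_ : MDifferentiable 𝓘(ℂ, ℂ) 𝓘(ℂ, ℂ) h) {O : Set X} (_ : IsOpen O)
        (_ : O.Nonempty) (_ : ∀ p ∈ O, (h p).re = 0), ∀ p q, h p = h q ∧ (h p).re = 0 := by
      intro h hh O hO hne hre p q
      have h1 := const_of_re hh hO hne hre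
      obtain ⟨x, hx⟩ := hne
      exact ⟨h1 p q, by rw [h1 p x]; exact hre x hx⟩
    by_cases h3 : (A1ᶜ ∩ A2ᶜ).Nonempty
    · right; right
      refine fin hfg (hA1c.isOpen_compl.inter hA2c.isOpen_compl) h3 ?_
      rintro p ⟨hp1, hp2⟩
      rcases hS p with h | h | h
      · exact absurd h hp1
      · exact absurd h hp2
      · rw [Complex.sub_re, h.1, sub_self]
    · rw [not_nonempty_iff_eq_empty] at h3
      by_cases h4 : (A1ᶜ).Nonempty
      · right; left
        refine fin hg hA1c.isOpen_compl h4 ?_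
        intro p hp
        by_contra h5
        have : p ∈ A1ᶜ ∩ A2ᶜ := ⟨hp, fun h => h5 h.1⟩
        rw [h3] at this
        exact this
      · left
        rw [not_nonempty_iff_eq_empty, compl_empty_iff] at h4
        refine fin hf isOpen_univ ⟨p₀, trivial⟩ ?_
        intro p _
        have : p ∈ A1 := by rw [h4]; trivial
        exact this.1
  rcases hcases with h | h | h
  · -- vertical line
    have hre : ∀ p, (u p).2.re ≤ 0 := by
      intro p
      rcases hS p with h1 | h1 | h1
      · exact h1.2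
      · exact h1.1.le
      · rw [← h1.1]; exact (h p p).2.le
    have hne : ∃ p q, (u p).2 ≠ (u q).2 :=
      ⟨a, b, fun h2 => hab (Prod.ext (h a b).1 h2)⟩
    have hsub := ball_subset_range (U := U) (x₀ := ((u p₀).1, 0)) (v := ((0, 1) : ℂ × ℂ))
      (z₀ := 0) (r := ε) (p₀ := p₀) hu.proper hg hne
      (fun p => by
        refine Prod.ext ?_ ?_
        · simp [(h p p₀).1]
        · simp)
      (fun z hz => by
        apply hU
        rw [mem_ball_zero_iff] at hz
        rw [Prod.norm_def]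
        simp only [Prod.mk_add_mk, Prod.smul_mk, smul_eq_mul, mul_zero, mul_one, add_zero, zero_add]
        exact max_lt (by linarith [hnorm.1]) (by linarith))
      (by rw [mem_ball_zero_iff]; exact hnorm.2)
    obtain ⟨q, hq⟩ := hsub (show ((ε / 2 : ℝ) : ℂ) ∈ Metric.ball 0 ε by
      rw [mem_ball_zero_iff, Complex.norm_real, Real.norm_eq_abs, abs_of_pos (by linarith)]
      linarith)
    have h1 := hre q
    simp only at hq
    rw [hq, Complex.ofReal_re] at h1
    linarith
  · -- horizontal line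
    have hre : ∀ p, (u p).1.re ≤ 0 := by
      intro p
      rcases hS p with h1 | h1 | h1
      · exact h1.1.le
      · exact h1.2
      · rw [h1.1]; exact (h p p).2.le
    have hne : ∃ p q, (u p).1 ≠ (u q).1 :=
      ⟨a, b, fun h2 => hab (Prod.ext h2 (h a b).1)⟩
    have hsub := ball_subset_range (U := U) (x₀ := (0, (u p₀).2)) (v := ((1, 0) : ℂ × ℂ))
      (z₀ := 0) (r := ε) (p₀ := p₀) hu.proper hf hne
      (fun p => by
        refine Prod.ext ?_ ?_
        · simp
        · simp [(h p p₀).1])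
      (fun z hz => by
        apply hU
        rw [mem_ball_zero_iff] at hz
        rw [Prod.norm_def]
        simp only [Prod.mk_add_mk, Prod.smul_mk, smul_eq_mul, mul_zero, mul_one, add_zero, zero_add]
        exact max_lt (by linarith) (by linarith [hnorm.2]))
      (by rw [mem_ball_zero_iff]; exact hnorm.1)
    obtain ⟨q, hq⟩ := hsub (show ((ε / 2 : ℝ) : ℂ) ∈ Metric.ball 0 ε by
      rw [mem_ball_zero_iff, Complex.norm_real, Real.norm_eq_abs, abs_of_pos (by linarith)]
      linarith)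
    have h1 := hre q
    simp only at hq
    rw [hq, Complex.ofReal_re] at h1
    linarith
  · -- diagonal line
    have hre : ∀ p, 0 ≤ (u p).1.re := by
      intro p
      have h2 := (h p p).2
      rw [Complex.sub_re] at h2
      rcases hS p with h1 | h1 | h1
      · rw [h1.1]
      · linarith [h1.1]
      · exact h1.2
    have hne : ∃ p q, (u p).1 ≠ (u q).1 := by
      refine ⟨a, b, fun h2 => hab (Prod.ext h2 ?_)⟩
      have h3 := (h a b).1
      rw [h2] at h3
      exact sub_right_injective h3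
    set c := (u p₀).1 - (u p₀).2 with hc
    have hcn : ‖c‖ < 2 * ε := by
      refine (norm_sub_le _ _).trans_lt ?_
      linarith [hnorm.1, hnorm.2]
    have hsub := ball_subset_range (U := U) (x₀ := (0, -c)) (v := ((1, 1) : ℂ × ℂ))
      (z₀ := 0) (r := ε) (p₀ := p₀) hu.proper hf hne
      (fun p => by
        refine Prod.ext ?_ ?_
        · simp
        · simp only [Prod.snd_add, Prod.smul_snd, smul_eq_mul, mul_one]
          rw [hc, ← (h p p₀).1]
          ring)
      (fun z hz => by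
        apply hU
        rw [mem_ball_zero_iff] at hz
        rw [Prod.norm_def]
        simp only [Prod.mk_add_mk, Prod.smul_mk, smul_eq_mul, mul_one, zero_add]
        refine max_lt (by linarith) ?_
        refine (norm_add_le _ _).trans_lt ?_
        rw [norm_neg]
        linarith)
      (by rw [mem_ball_zero_iff]; exact hnorm.1)
    obtain ⟨q, hq⟩ := hsub (show ((-(ε / 2) : ℝ) : ℂ) ∈ Metric.ball 0 ε by
      rw [mem_ball_zero_iff, Complex.norm_real, Real.norm_eq_abs, abs_neg, abs_of_pos (by linarith)]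
      linarith)
    have h1 := hre q
    simp only at hq
    rw [hq, Complex.ofReal_re] at h1
    linarith

end Pool.Agent.V11192.Ghys
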