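import Mathlib

/-! Currents, structure cones, pseudoholomorphic curves: the definitions used in the statement. -/

set_option autoImplicit false

namespace Pool.Agent.V11192.Ghys.Stmt

open MeasureTheory Set Topology TopologicalSpace
open scoped Manifold ContDiff

section

variable {V : Type} [NormedAddCommGroup V] [NormedSpace ℝ V]

/-- `Ω^k_c(U)`: smooth `k`-forms on the vector space `V` with compact support contained in the open
set `U` (Mathlib's test functions on `U` with values in the alternating `k`-forms of `V`). -/
def Form (k : ℕ) (U : Opens V) : Type := TestFunction U (V [⋀^Fin k]→L[ℝ] ℝ) ⊤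

noncomputable instance (k : ℕ) (U : Opens V) : AddCommGroup (Form k U) :=
  inferInstanceAs (AddCommGroup (TestFunction U (V [⋀^Fin k]→L[ℝ] ℝ) ⊤))

noncomputable instance (k : ℕ) (U : Opens V) : Module ℝ (Form k U) :=
  inferInstanceAs (Module ℝ (TestFunction U (V [⋀^Fin k]→L[ℝ] ℝ) ⊤))

/-- the usual topology of the space of test functions -/
noncomputable instance (k : ℕ) (U : Opens V) : TopologicalSpace (Form k U) :=
  inferInstanceAs (TopologicalSpace (TestFunction U (V [⋀^Fin k]→L[ℝ] ℝ) ⊤))

/-- The value `α_x` of the form `α` at the point `x`. -/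
def Form.val {k : ℕ} {U : Opens V} (α : Form k U) (x : V) : V [⋀^Fin k]→L[ℝ] ℝ :=
  TestFunction.toFun α x

/-- The space of 2-currents on `U`, that is, of continuous linear functionals on `Ω^2_c(U)`, with
the weak topology. -/
def Current (U : Opens V) : Type := WeakDual ℝ (Form 2 U)

noncomputable instance (U : Opens V) : AddCommGroup (Current U) :=
  inferInstanceAs (AddCommGroup (WeakDual ℝ (Form 2 U)))

noncomputable instance (U : Opens V) : Module ℝ (Current U) :=
  inferInstanceAs (Module ℝ (WeakDual ℝ (Form 2 U)))

/-- the weak topology -/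
noncomputable instance (U : Opens V) : TopologicalSpace (Current U) :=
  inferInstanceAs (TopologicalSpace (WeakDual ℝ (Form 2 U)))

/-- The value `c(α)` of the current `c` on the form `α`. -/
noncomputable def Current.val {U : Opens V} (c : Current U) (α : Form 2 U) : ℝ :=
  DFunLike.coe (F := WeakDual ℝ (Form 2 U)) c α

theorem dirac_add {U : Opens V} (y v w : V) (α β : Form 2 U) :
    (α + β).val y ![v, w] = α.val y ![v, w] + β.val y ![v, w] := rfl

theorem dirac_smul {U : Opens V} (y v w : V) (r : ℝ) (α : Form 2 U) :
    (r • α).val y ![v, w] = r • α.val y ![v, w] := rfl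

theorem dirac_continuous {U : Opens V} (y v w : V) :
    Continuous fun α : Form 2 U => α.val y ![v, w] :=
  (continuous_eval_const (F := V [⋀^Fin 2]→L[ℝ] ℝ) ![v, w]).comp
    (continuous_eval_const (F := TestFunction U (V [⋀^Fin 2]→L[ℝ] ℝ) ⊤) y)

/-- The Dirac current of the 2-vector `v ∧ w` at `y`: it maps the form `α` to `α_y(v, w)`. -/
noncomputable def dirac (U : Opens V) (y v w : V) : Current U :=
  show Form 2 U →L[ℝ] ℝ from
    { toFun := fun α : Form 2 U => α.val y ![v, w]
      map_add' := dirac_add y v w
      map_smul' := dirac_smul y v w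
      cont := dirac_continuous y v w }

theorem dForm_contDiff {U : Opens V} (β : Form 1 U) : ContDiff ℝ (⊤ : ℕ∞) (extDeriv β.val) :=
  (ContinuousAlternatingMap.alternatizeUncurryFinCLM ℝ V ℝ).contDiff.comp
    ((TestFunction.contDiff β).fderiv_right le_rfl)

theorem dForm_hasCompactSupport {U : Opens V} (β : Form 1 U) :
    HasCompactSupport (extDeriv β.val) :=
  ((TestFunction.hasCompactSupport β).fderiv ℝ).comp_left
    (g := ContinuousAlternatingMap.alternatizeUncurryFinCLM ℝ V ℝ) (map_zero _)

theorem dForm_tsupport_subset {U : Opens V} (β : Form 1 U) : tsupport (extDeriv β.val) ⊆ U :=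
  (tsupport_comp_subset
    (g := ContinuousAlternatingMap.alternatizeUncurryFinCLM ℝ V ℝ) (map_zero _) _).trans
      ((tsupport_fderiv_subset ℝ).trans (TestFunction.tsupport_subset β))

/-- The exterior derivative `Ω^1_c(U) → Ω^2_c(U)`. -/
noncomputable def dForm {U : Opens V} (β : Form 1 U) : Form 2 U :=
  TestFunction.mk (extDeriv β.val) (dForm_contDiff β) (dForm_hasCompactSupport β)
    (dForm_tsupport_subset β)

/-- The current `c` is a cycle: its boundary `β ↦ c(dβ)` vanishes. -/
def IsCycle {U : Opens V} (c : Current U) : Prop := ∀ β : Form 1 U, c.val (dForm β) = 0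

/-- Extension by zero `Ω^2_c(U) → Ω^2_c(V)`. -/
def extZero {U : Opens V} (α : Form 2 U) : Form 2 (⊤ : Opens V) :=
  TestFunction.mk α.val (TestFunction.contDiff α) (TestFunction.hasCompactSupport α)
    (subset_univ _)

end

/-- The closed convex cone generated by the set `S`. -/
def closedCone {W : Type} [AddCommGroup W] [Module ℝ W] [TopologicalSpace W] (S : Set W) : Set W :=
  ⋂₀ {K | IsClosed K ∧ Convex ℝ K ∧ (∀ t : ℝ, 0 ≤ t → ∀ x ∈ K, t • x ∈ K) ∧ S ⊆ K}

section

variable {V : Type} [NormedAddCommGroup V] [NormedSpace ℝ V] [NormedSpace ℂ V]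

/-- `C`-currents for the structure cone of the complex structure `J v = i v`: the elements of the
closed convex cone generated by the Dirac currents of the 2-vectors `v ∧ J v`. -/
def IsCCurrent {U : Opens V} (c : Current U) : Prop :=
  c ∈ closedCone {δ : Current U | ∃ y ∈ U, ∃ v : V, δ = dirac U y v (Complex.I • v)}

variable {X : Type} [TopologicalSpace X]

/-- The derivative of the holomorphic map `u` in the chart `e`, at the point with coordinate `z`. -/
noncomputable def chartDeriv (u : X → V) (e : OpenPartialHomeomorph X ℂ) (z : ℂ) : V :=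
  deriv (fun y => u (e.symm y)) z

/-- The coefficient of the pull-back `u^* α` with respect to `dx ∧ dy` in the holomorphic chart
`e = x + i y` of the Riemann surface `X`, for a holomorphic map `u`. -/
noncomputable def pullCoeff (u : X → V) (e : OpenPartialHomeomorph X ℂ)
    (α : V → V [⋀^Fin 2]→L[ℝ] ℝ) (z : ℂ) : ℝ :=
  α (u (e.symm z)) ![chartDeriv u e z, Complex.I • chartDeriv u e z]

/-- `u : X → V` parametrises a pseudoholomorphic curve in the open set `U`: `X` is a connected
Riemann surface and `u` is holomorphic, somewhere injective, with image in `U` and proper as a map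
into `U`. -/
structure IsCurve (U : Opens V) (X : Type) [TopologicalSpace X] [ChartedSpace ℂ X] (u : X → V) :
    Prop where
  t2 : T2Space X
  connected : ConnectedSpace X
  manifold : IsManifold 𝓘(ℂ, ℂ) ω X
  holomorphic : MDifferentiable 𝓘(ℂ, ℂ) 𝓘(ℂ, V) u
  mem : ∀ p, u p ∈ U
  proper : ∀ K : Set V, K ⊆ U → IsCompact K → IsCompact (u ⁻¹' K)
  somewhere_injective : ∃ p : X, chartDeriv u (chartAt ℂ p) (chartAt ℂ p p) ≠ 0 ∧
    ∀ q : X, u q = u p → q = p

/-- `(e, A)` is a partition of the Riemann surface `X` into countably many Borel sets, each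
contained in the domain of a holomorphic chart. -/
structure IsPartition (X : Type) [TopologicalSpace X] [ChartedSpace ℂ X]
    (e : ℕ → OpenPartialHomeomorph X ℂ) (A : ℕ → Set X) : Prop where
  chart : ∀ k, e k ∈ atlas ℂ X
  measurable : ∀ k, MeasurableSet[borel X] (A k)
  subset : ∀ k, A k ⊆ (e k).source
  disjoint : Pairwise (fun k l => Disjoint (A k) (A l))
  cover : ⋃ k, A k = univ

/-- `T` is the current `α ↦ ∫_X u^* α`: the integral is computed (and converges absolutely) on some
partition of `X` into countably many Borel sets, each contained in a holomorphic chart. -/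
def IsIntegration [ChartedSpace ℂ X] (U : Opens V) (u : X → V) (T : Current U) : Prop :=
  ∃ (e : ℕ → OpenPartialHomeomorph X ℂ) (A : ℕ → Set X), IsPartition X e A ∧
    ∀ α : Form 2 U, (∀ k, IntegrableOn (pullCoeff u (e k) α.val) (e k '' A k)) ∧
      HasSum (fun k => ∫ z in e k '' A k, pullCoeff u (e k) α.val z) (T.val α)

/-- The set of pseudoholomorphic curves in `U`, viewed as currents on `U`. -/
def curves (U : Opens V) : Set (Current U) :=
  {T | ∃ (X : Type) (_ : TopologicalSpace X) (_ : ChartedSpace ℂ X) (u : X → V),
    IsCurve U X u ∧ IsIntegration U u T}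

/-- The value of a pseudoholomorphic curve in `U` on the form `α`. -/
noncomputable def curveVal {U : Opens V} (α : Form 2 U) (T : curves U) : ℝ := T.1.val α

/-- On the open set `U`, the current `c` is a superposition of pseudoholomorphic curves: there is a
non-negative measure (on some `σ`-algebra) on the set of pseudoholomorphic curves in `U` such that
`c(α) = ∫ c'(α) dν(c')` for all `α ∈ Ω^2_c(U)`. -/
def IsSuperposition (c : Current (⊤ : Opens V)) (U : Opens V) : Prop :=
  ∃ (m : MeasurableSpace (curves U)) (ν : @Measure (curves U) m), ∀ α : Form 2 U,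
    Integrable (curveVal α) ν ∧ c.val (extZero α) = ∫ T, curveVal α T ∂ν

/-- The current `c` on `V` is a `C`-cycle (for the foliation with the single leaf `V` and
`J v = i v`), and on no open neighbourhood `U` of `x` is it a superposition of pseudoholomorphic
curves in `U`. -/
def IsCounterexample (c : Current (⊤ : Opens V)) (x : V) : Prop :=
  IsCCurrent c ∧ IsCycle c ∧ ∀ U : Opens V, x ∈ U → ¬ IsSuperposition c U

end

end Pool.Agent.V11192.Ghys.Stmt
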