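import Pool.Agent.V11192.Ghys.Pos

/-! Stokes formula for half-spaces. -/

set_option autoImplicit false

namespace Pool.Agent.V11192.Ghys

open MeasureTheory Set Topology TopologicalSpace
open scoped Manifold ContDiff Distributions

variable {V : Type} [NormedAddCommGroup V] [NormedSpace ℝ V]

theorem line_embedding (x : V) {v : V} (hv : v ≠ 0) :
    IsClosedEmbedding fun s : ℝ => x + s • v :=
  (Homeomorph.addLeft x).isClosedEmbedding.comp (isClosedEmbedding_smul_left hv)

theorem line_hasDerivAt {k : V → ℝ} (hk : ContDiff ℝ ∞ k) (x v : V) (s : ℝ) :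
    HasDerivAt (fun s : ℝ => k (x + s • v)) (fderiv ℝ k (x + s • v) v) s := by
  have h1 : HasDerivAt (fun s : ℝ => x + s • v) v s := by
    simpa using ((hasDerivAt_id s).smul_const v).const_add x
  exact ((hk.differentiable (by simp)) (x + s • v)).hasFDerivAt.comp_hasDerivAt s h1

theorem line_contDiff {k : V → ℝ} (hk : ContDiff ℝ ∞ k) (x v : V) :
    ContDiff ℝ 1 (fun s : ℝ => k (x + s • v)) := by
  have h1 : ContDiff ℝ ∞ (fun s : ℝ => x + s • v) := by fun_prop
  exact (hk.comp h1).of_le (by exact_mod_cast le_top)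

theorem line_compact {k : V → ℝ} (hc : HasCompactSupport k) (x : V) {v : V} (hv : v ≠ 0) :
    HasCompactSupport (fun s : ℝ => k (x + s • v)) :=
  hc.comp_isClosedEmbedding (line_embedding x hv)

theorem line_Iic {k : V → ℝ} (hk : ContDiff ℝ ∞ k) (hc : HasCompactSupport k) (x : V) {v : V}
    (hv : v ≠ 0) : ∫ s in Iic (0:ℝ), fderiv ℝ k (x + s • v) v = k x := by
  have h := (line_compact hc x hv).integral_Iic_deriv_eq (line_contDiff hk x v) 0
  simp only [zero_smul, add_zero] at h
  rw [← h]
  refine integral_congr_ae (Filter.Eventually.of_forall fun s => ?_)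
  exact (line_hasDerivAt hk x v s).deriv.symm

theorem line_Ioi {k : V → ℝ} (hk : ContDiff ℝ ∞ k) (hc : HasCompactSupport k) (x : V) {v : V}
    (hv : v ≠ 0) : ∫ s in Ioi (0:ℝ), fderiv ℝ k (x + s • v) v = - k x := by
  have h := (line_compact hc x hv).integral_Ioi_deriv_eq (line_contDiff hk x v) 0
  simp only [zero_smul, add_zero] at h
  rw [← h]
  refine integral_congr_ae (Filter.Eventually.of_forall fun s => ?_)
  exact (line_hasDerivAt hk x v s).deriv.symm

theorem line_univ {k : V → ℝ} (hk : ContDiff ℝ ∞ k) (hc : HasCompactSupport k) (x : V) {v : V}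
    (hv : v ≠ 0) : ∫ s : ℝ, fderiv ℝ k (x + s • v) v = 0 := by
  have hc1 := line_compact hc x hv
  have hd : deriv (fun s : ℝ => k (x + s • v)) = fun s => fderiv ℝ k (x + s • v) v := by
    ext s; exact (line_hasDerivAt hk x v s).deriv
  refine integral_eq_zero_of_hasDerivAt_of_integrable (fun s => line_hasDerivAt hk x v s) ?_ ?_
  · rw [← hd]
    exact ((line_contDiff hk x v).continuous_deriv le_rfl).integrable_of_hasCompactSupport hc1.deriv
  · exact (line_contDiff hk x v).continuous.integrable_of_hasCompactSupport hc1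

/-- the measure on the half-space -/
noncomputable def halfMeasure (A : Set ℝ) : Measure (ℝ × (ℝ × ℝ)) :=
  (volume.restrict A).prod volume

theorem extDeriv_two {β : V → V [⋀^Fin 1]→L[ℝ] ℝ} (hβ : ContDiff ℝ ∞ β) (x v w : V) :
    extDeriv β x ![v, w] = fderiv ℝ (fun y => β y ![w]) x v - fderiv ℝ (fun y => β y ![v]) x w := by
  rw [extDeriv_apply ((hβ.differentiable (by simp)) x), Fin.sum_univ_two]
  have e0 : (0 : Fin 2).removeNth ![v, w] = ![w] := by
    ext i; fin_cases i; rfl
  have e1 : (1 : Fin 2).removeNth ![v, w] = ![v] := by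
    ext i; fin_cases i; rfl
  rw [e0, e1]
  simp
  ring

variable {β : V → V [⋀^Fin 1]→L[ℝ] ℝ}

theorem contDiff_coeff (hβ : ContDiff ℝ ∞ β) (m : Fin 1 → V) : ContDiff ℝ ∞ fun y => β y m := by
  exact (ContinuousAlternatingMap.apply ℝ V ℝ m).contDiff.comp hβ

theorem compact_coeff (hc : HasCompactSupport β) (m : Fin 1 → V) :
    HasCompactSupport fun y => β y m :=
  hc.comp_left (g := ContinuousAlternatingMap.apply ℝ V ℝ m) (map_zero _)

section

variable {L : ℝ × (ℝ × ℝ) →L[ℝ] V} {v w a : V}

theorem integrable_part {k : V → ℝ} (hk : ContDiff ℝ ∞ k) (hc : HasCompactSupport k)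
    (hL : Function.Injective L) (u : V) {μ : Measure (ℝ × (ℝ × ℝ))} [IsLocallyFiniteMeasure μ] :
    Integrable (fun p => fderiv ℝ k (L p) u) μ := by
  have hemb : IsClosedEmbedding L :=
    LinearMap.isClosedEmbedding_of_injective (f := (L : ℝ × (ℝ × ℝ) →ₗ[ℝ] V))
      (LinearMap.ker_eq_bot.2 hL)
  have hcont : Continuous fun y => fderiv ℝ k y u :=
    (hk.continuous_fderiv (by simp)).clm_apply continuous_const
  have hcs : HasCompactSupport fun y => fderiv ℝ k y u := by
    exact (hc.fderiv ℝ).comp_left (g := fun T : V →L[ℝ] ℝ => T u) rfl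
  exact (hcont.comp L.continuous).integrable_of_hasCompactSupport
    (hcs.comp_isClosedEmbedding hemb)

theorem v_ne (hL : Function.Injective L) (hLd : ∀ s t τ, L (s, (t, τ)) = s • v + t • w + τ • a) :
    v ≠ 0 ∧ w ≠ 0 := by
  constructor
  · rintro rfl
    have h1 : L (1, (0, 0)) = L (0, (0, 0)) := by rw [hLd, hLd]; simp
    have := hL h1
    simp at this
  · rintro rfl
    have h1 : L (0, (1, 0)) = L (0, (0, 0)) := by rw [hLd, hLd]; simp
    have := hL h1
    simp at this

theorem tangential_zero (hβ : ContDiff ℝ ∞ β) (hc : HasCompactSupport β)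
    (hL : Function.Injective L) (hLd : ∀ s t τ, L (s, (t, τ)) = s • v + t • w + τ • a)
    (A : Set ℝ) (m : Fin 1 → V) :
    ∫ p, fderiv ℝ (fun y => β y m) (L p) w ∂(halfMeasure A) = 0 := by
  have hk := contDiff_coeff hβ m
  have hkc := compact_coeff hc m
  have hw := (v_ne hL hLd).2
  rw [halfMeasure, integral_prod _ (integrable_part hk hkc hL w)]
  have h1 : ∀ s : ℝ, ∫ q : ℝ × ℝ, fderiv ℝ (fun y => β y m) (L (s, q)) w = 0 := by
    intro s
    rw [Measure.volume_eq_prod, integral_prod_symm]
    · have h2 : ∀ τ : ℝ, ∫ t : ℝ, fderiv ℝ (fun y => β y m) (L (s, (t, τ))) w = 0 := by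
        intro τ
        rw [← line_univ hk hkc (s • v + τ • a) hw]
        refine integral_congr_ae (Filter.Eventually.of_forall fun t => ?_)
        simp only [hLd]
        congr 2
        abel
      simp only [h2, integral_zero]
    · -- integrability on the slice
      have hemb : IsClosedEmbedding fun q : ℝ × ℝ => L (s, q) := by
        have e1 : IsClosedEmbedding L :=
          LinearMap.isClosedEmbedding_of_injective (f := (L : ℝ × (ℝ × ℝ) →ₗ[ℝ] V))
            (LinearMap.ker_eq_bot.2 hL)
        refine e1.comp ?_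
        have e2 : Continuous fun q : ℝ × ℝ => ((s, q) : ℝ × (ℝ × ℝ)) := by fun_prop
        refine IsClosedEmbedding.of_continuous_injective_isClosedMap e2
          (fun a b h => (Prod.mk.inj h).2) ?_
        intro C hC
        have : (fun q : ℝ × ℝ => ((s, q) : ℝ × (ℝ × ℝ))) '' C = {s} ×ˢ C := by
          ext p
          constructor
          · rintro ⟨q, hq, rfl⟩
            exact ⟨rfl, hq⟩
          · rintro ⟨h1, h2⟩
            exact ⟨p.2, h2, Prod.ext (mem_singleton_iff.1 h1).symm rfl⟩
        rw [this]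
        exact isClosed_singleton.prod hC
      have hcont : Continuous fun y => fderiv ℝ (fun y => β y m) y w :=
        (hk.continuous_fderiv (by simp)).clm_apply continuous_const
      have hcs : HasCompactSupport fun y => fderiv ℝ (fun y => β y m) y w :=
        (hkc.fderiv ℝ).comp_left (g := fun T : V →L[ℝ] ℝ => T w) rfl
      rw [← Measure.volume_eq_prod]
      exact (hcont.comp hemb.continuous).integrable_of_hasCompactSupport
        (hcs.comp_isClosedEmbedding hemb)
  simp only [h1, integral_zero]

theorem stokes_Iic (hβ : ContDiff ℝ ∞ β) (hc : HasCompactSupport β)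
    (hL : Function.Injective L) (hLd : ∀ s t τ, L (s, (t, τ)) = s • v + t • w + τ • a) :
    ∫ p, extDeriv β (L p) ![v, w] ∂(halfMeasure (Iic 0)) = ∫ q : ℝ × ℝ, β (L (0, q)) ![w] := by
  have hv := (v_ne hL hLd).1
  simp only [extDeriv_two hβ]
  have hi : ∀ (m : Fin 1 → V) (u : V),
      Integrable (fun p => fderiv ℝ (fun y => β y m) (L p) u) (halfMeasure (Iic 0)) := by
    intro m u
    have : IsLocallyFiniteMeasure (halfMeasure (Iic 0)) := by
      unfold halfMeasure; infer_instance
    exact integrable_part (contDiff_coeff hβ m) (compact_coeff hc m) hL u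
  rw [integral_sub (hi _ _) (hi _ _), tangential_zero hβ hc hL hLd, sub_zero, halfMeasure,
    integral_prod_symm _ (hi _ _)]
  refine integral_congr_ae (Filter.Eventually.of_forall fun q => ?_)
  simp only
  rw [← line_Iic (contDiff_coeff hβ ![w]) (compact_coeff hc ![w]) (L (0, q)) hv]
  refine integral_congr_ae (Filter.Eventually.of_forall fun s => ?_)
  simp only
  have : L (s, q) = L (0, q) + s • v := by
    obtain ⟨t, τ⟩ := q
    rw [hLd, hLd, zero_smul]
    abel
  rw [this]

theorem stokes_Ioi (hβ : ContDiff ℝ ∞ β) (hc : HasCompactSupport β)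
    (hL : Function.Injective L) (hLd : ∀ s t τ, L (s, (t, τ)) = s • v + t • w + τ • a) :
    ∫ p, extDeriv β (L p) ![v, w] ∂(halfMeasure (Ioi 0)) = - ∫ q : ℝ × ℝ, β (L (0, q)) ![w] := by
  have hv := (v_ne hL hLd).1
  simp only [extDeriv_two hβ]
  have hi : ∀ (m : Fin 1 → V) (u : V),
      Integrable (fun p => fderiv ℝ (fun y => β y m) (L p) u) (halfMeasure (Ioi 0)) := by
    intro m u
    have : IsLocallyFiniteMeasure (halfMeasure (Ioi 0)) := by
      unfold halfMeasure; infer_instance
    exact integrable_part (contDiff_coeff hβ m) (compact_coeff hc m) hL u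
  rw [integral_sub (hi _ _) (hi _ _), tangential_zero hβ hc hL hLd, sub_zero, halfMeasure,
    integral_prod_symm _ (hi _ _), ← integral_neg]
  refine integral_congr_ae (Filter.Eventually.of_forall fun q => ?_)
  simp only
  rw [← line_Ioi (contDiff_coeff hβ ![w]) (compact_coeff hc ![w]) (L (0, q)) hv]
  refine integral_congr_ae (Filter.Eventually.of_forall fun s => ?_)
  simp only
  have : L (s, q) = L (0, q) + s • v := by
    obtain ⟨t, τ⟩ := q
    rw [hLd, hLd, zero_smul]
    abel
  rw [this]

end

end Pool.Agent.V11192.Ghys
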